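import Pool.Agent.T2h24.HC.Col
import Pool.Agent.TH747.HT.Diag

/-!
Avoiding a sparse `Σ⁰₄` set: a computable colouring with two colours such that `x + l` and `l`
have different colours for every `x` in the set and all typical `l`.
-/

namespace Pool.Agent.T2h24.AV

open Encodable Filter Pool.Agent.H645R2.HT Pool.Agent.Helper446 Pool.Agent.Helper446.RE
open Pool.Agent.TH747.HT (act add_mod_la dg_mod dg_mod_high mod_pos la_mod add_mod_high c_pow3
  c_mod comp_rec3)

variable {D : ℕ → ℕ → Bool} {hs : ℕ → ℕ → ℕ}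

/-- The gap below the position `q` of `a` is large, at stage `v`. -/
def cutA (hs : ℕ → ℕ → ℕ) (v a q : ℕ) : Bool :=
  decide (dg q a ≠ 0) && (decide (0 < a % 3 ^ q) &&
    exB (fun u => decide (3 ^ (mu (a % 3 ^ q) + 1) ≤ hs (3 ^ u) v)) (q + 1))

/-- The position above the last large gap. -/
def cp (hs : ℕ → ℕ → ℕ) (v a : ℕ) : ℕ :=
  mu a - lst (fun i => cutA hs v a (mu a - i)) (mu a + 1)

/-- The part of `a` above its last large gap. -/
def rep (hs : ℕ → ℕ → ℕ) (v a : ℕ) : ℕ := a - a % 3 ^ cp hs v a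

theorem cutA_iff {v a q : ℕ} : cutA hs v a q = true ↔ dg q a ≠ 0 ∧ 0 < a % 3 ^ q ∧
    ∃ u ≤ q, 3 ^ (mu (a % 3 ^ q) + 1) ≤ hs (3 ^ u) v := by
  unfold cutA
  rw [Bool.and_eq_true, Bool.and_eq_true, decide_eq_true_eq, decide_eq_true_eq, exB_iff]
  simp only [decide_eq_true_eq, Nat.lt_succ_iff]

theorem cp_spec {v a : ℕ} : (cp hs v a = 0 ∧ ∀ q ≤ mu a, cutA hs v a q = false) ∨
    (cp hs v a ≤ mu a ∧ cutA hs v a (cp hs v a) = true ∧
      ∀ q ≤ mu a, cp hs v a < q → cutA hs v a q = false) := by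
  unfold cp
  rcases lst_spec (fun i => cutA hs v a (mu a - i)) (mu a + 1) with ⟨h1, h2, h3⟩ | ⟨h1, h2⟩
  · right
    refine ⟨Nat.sub_le _ _, h2, fun q hq hlt => ?_⟩
    have h4 := h3 (mu a - q) (by omega)
    rwa [Nat.sub_sub_self hq] at h4
  · left
    rw [h1]
    refine ⟨by omega, fun q hq => ?_⟩
    have h4 := h2 (mu a - q) (by omega)
    rwa [Nat.sub_sub_self hq] at h4

/-- The position is determined by its properties. -/
theorem cp_eq {v a q : ℕ} (hq : q ≤ mu a) (h1 : cutA hs v a q = true)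
    (h2 : ∀ q' ≤ mu a, q < q' → cutA hs v a q' = false) : cp hs v a = q := by
  rcases cp_spec (hs := hs) (v := v) (a := a) with ⟨-, h4⟩ | ⟨h3, h4, h5⟩
  · rw [h4 q hq] at h1; cases h1
  · rcases Nat.lt_trichotomy (cp hs v a) q with h | h | h
    · rw [h5 q hq h] at h1; cases h1
    · exact h
    · rw [h2 _ h3 h] at h4; cases h4

theorem cp_zero {v a : ℕ} (h : ∀ q ≤ mu a, cutA hs v a q = false) : cp hs v a = 0 := by
  rcases cp_spec (hs := hs) (v := v) (a := a) with ⟨h3, -⟩ | ⟨h3, h4, -⟩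
  · exact h3
  · rw [h _ h3] at h4; cases h4

theorem dg_add_of {w b q : ℕ} (hw : Sep w b) (hq : la b ≤ q) : dg q (w + b) = dg q b := by
  unfold Pool.Agent.H645R2.HT.Sep at hw
  have h7 : 3 ^ la b ∣ b := dvd_of_dg fun i hi => dg_of_lt_la hi
  have h8 : w < 3 ^ la b := lt_of_dg fun i hi => dg_of_mu_lt (by omega)
  obtain ⟨r, hr⟩ := h7
  have h9 := dg_add_high (q := r) h8 hq
  rw [← hr] at h9
  exact h9

theorem mod_la {b q : ℕ} (hq : q ≤ la b) : b % 3 ^ q = 0 := by
  have h7 : 3 ^ la b ∣ b := dvd_of_dg fun i hi => dg_of_lt_la hi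
  exact Nat.mod_eq_zero_of_dvd ((pow_dvd_pow 3 hq).trans h7)

/-- A small number in front of a large gap does not matter. -/
theorem rep_add {v w b : ℕ} (hw : 0 < w) (hb : 0 < b) (hs1 : Sep w b)
    (hcut : ∃ u ≤ la b, 3 ^ (mu w + 1) ≤ hs (3 ^ u) v) : rep hs v (w + b) = rep hs v b := by
  have hmu : mu (w + b) = mu b := mu_add hb hs1
  have hlm := la_le_mu hb
  have hhigh : ∀ q, la b < q → cutA hs v (w + b) q = cutA hs v b q := by
    intro q hq
    have e1 := dg_add_of hs1 hq.le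
    have e2 := add_mod_high hb hs1 hq
    have e3 : 0 < b % 3 ^ q := mod_pos hb hq
    have e4 : Sep w (b % 3 ^ q) := by
      unfold Pool.Agent.H645R2.HT.Sep at *
      rw [la_mod hb hq]
      exact hs1
    have e5 : mu ((w + b) % 3 ^ q) = mu (b % 3 ^ q) := by rw [e2, mu_add e3 e4]
    unfold cutA
    rw [e1, e5, e2]
    have e6 : decide (0 < w + b % 3 ^ q) = decide (0 < b % 3 ^ q) := by
      rw [decide_eq_true e3, decide_eq_true (show 0 < w + b % 3 ^ q by omega)]
    rw [e6]
  have hat : cutA hs v (w + b) (la b) = true := by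
    rw [cutA_iff, dg_add_of hs1 le_rfl, add_mod_la hb hs1]
    exact ⟨mem_L.1 (la_mem hb), hw, hcut⟩
  have hlow : ∀ q ≤ la b, cutA hs v b q = false := by
    intro q hq
    by_contra hc
    rw [Bool.not_eq_false, cutA_iff, mod_la hq] at hc
    exact absurd hc.2.1 (lt_irrefl _)
  rcases cp_spec (hs := hs) (v := v) (a := b) with ⟨h3, h4⟩ | ⟨h3, h4, h5⟩
  · have h6 : cp hs v (w + b) = la b := by
      refine cp_eq (by rw [hmu]; exact hlm) hat fun q hq hlt => ?_
      rw [hhigh q hlt]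
      exact h4 q (by rw [← hmu]; exact hq)
    unfold rep
    rw [h6, h3, add_mod_la hb hs1, pow_zero, Nat.mod_one]
    omega
  · have h7 : la b < cp hs v b := by
      by_contra hc
      rw [hlow _ (not_lt.1 hc)] at h4
      cases h4
    have h6 : cp hs v (w + b) = cp hs v b := by
      refine cp_eq (by rw [hmu]; exact h3) (by rw [hhigh _ h7]; exact h4) fun q hq hlt => ?_
      rw [hhigh q (by omega)]
      exact h5 q (by rw [← hmu]; exact hq) hlt
    unfold rep
    rw [h6, add_mod_high hb hs1 h7]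
    omega

/-- Stages at which the approximation is correct. -/
theorem rep_congr {h : ℕ → ℕ} {v a : ℕ} (hv : ∀ u ≤ mu a, hs (3 ^ u) v = h (3 ^ u)) :
    rep hs v a = rep (fun x _ => h x) 0 a := by
  have hc : ∀ q ≤ mu a, cutA hs v a q = cutA (fun x _ => h x) 0 a q := by
    intro q hq
    rw [Bool.eq_iff_iff, cutA_iff, cutA_iff]
    refine and_congr_right fun _ => and_congr_right fun _ => exists_congr fun u => ?_
    refine and_congr_right fun hu => ?_
    rw [hv u (by omega)]
  have h1 : cp hs v a = cp (fun x _ => h x) 0 a := by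
    rcases cp_spec (hs := hs) (v := v) (a := a) with ⟨h3, h4⟩ | ⟨h3, h4, h5⟩
    · rw [h3]
      exact (cp_zero fun q hq => by rw [← hc q hq]; exact h4 q hq).symm
    · refine (cp_eq h3 (by rw [← hc _ h3]; exact h4) fun q hq hlt => ?_).symm
      rw [← hc q hq]
      exact h5 q hq hlt
  unfold rep
  rw [h1]

theorem rep_le {v a : ℕ} : rep hs v a ≤ a := Nat.sub_le _ _

theorem lt_pow_mu {n : ℕ} : n < 3 ^ (mu n + 1) := lt_of_dg fun i hi => dg_of_mu_lt (by omega)

theorem pow_le_of_dg {n q : ℕ} (h : dg q n ≠ 0) : 3 ^ q ≤ n := by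
  by_contra hc
  apply h
  unfold dg
  rw [Nat.div_eq_of_lt (not_le.1 hc)]

/-- Elements of a set with large gaps have different representatives. -/
theorem rep_inj {h : ℕ → ℕ} (hm : Monotone h) {x y : ℕ} (hxy : x < y)
    (hg : x + h x ≤ y) : rep (fun x _ => h x) 0 x ≠ rep (fun x _ => h x) 0 y := by
  intro he
  have h1 : rep (fun x _ => h x) 0 x ≤ x := rep_le
  rcases cp_spec (hs := fun x _ => h x) (v := 0) (a := y) with ⟨h3, -⟩ | ⟨-, h4, -⟩
  · have h2 : rep (fun x _ => h x) 0 y = y := by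
      unfold rep
      rw [h3, pow_zero, Nat.mod_one, Nat.sub_zero]
    omega
  · rw [cutA_iff] at h4
    obtain ⟨a1, a2, u, hu, a3⟩ := h4
    generalize hq : cp (fun x _ => h x) 0 y = q at a1 a2 a3 hu
    have h5 : rep (fun x _ => h x) 0 y = y - y % 3 ^ q := by unfold rep; rw [hq]
    have h6 : 3 ^ q ≤ y - y % 3 ^ q := by
      have b1 := pow_le_of_dg a1
      have b2 := Nat.mod_add_div y (3 ^ q)
      have b3 : 1 ≤ y / 3 ^ q := (Nat.one_le_div_iff (by positivity)).2 b1
      have b4 : 3 ^ q * 1 ≤ 3 ^ q * (y / 3 ^ q) := Nat.mul_le_mul_left _ b3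
      omega
    have h7 : y % 3 ^ q < 3 ^ (mu (y % 3 ^ q) + 1) := lt_pow_mu
    have h8 : h (3 ^ u) ≤ h x := hm (by
      have b1 : 3 ^ u ≤ 3 ^ q := Nat.pow_le_pow_right (by norm_num) hu
      omega)
    have h9 : y % 3 ^ q ≤ y := Nat.mod_le _ _
    omega

/-- The test for the candidate `p`. -/
def tst (D : ℕ → ℕ → Bool) (hs : ℕ → ℕ → ℕ) (e j v r l p : ℕ) : Bool :=
  D (Nat.pair e (Nat.pair j p)) l && (decide (0 < p.unpair.1) &&
    (decide (mu p.unpair.1 < la l) && decide (rep hs v p.unpair.1 = r)))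

/-- The candidate used. -/
def pk (D : ℕ → ℕ → Bool) (hs : ℕ → ℕ → ℕ) (e j v r l : ℕ) : ℕ :=
  lst (tst D hs e j v r l) (la l)

theorem tst_iff {e j v r l p : ℕ} : tst D hs e j v r l p = true ↔
    D (Nat.pair e (Nat.pair j p)) l = true ∧ 0 < p.unpair.1 ∧ mu p.unpair.1 < la l ∧
      rep hs v p.unpair.1 = r := by
  unfold tst
  simp only [Bool.and_eq_true, decide_eq_true_eq]

/-- The value at a split. -/
def GG (D : ℕ → ℕ → Bool) (hs : ℕ → ℕ → ℕ) (e j : ℕ) (cc : ℕ → Bool) (v r l : ℕ) : Bool :=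
  decide (pk D hs e j v r l < la l) && !(cc ((pk D hs e j v r l).unpair.1 + l))

/-- The colour of `n`, restricted to the positions below `v`. -/
def CC (D : ℕ → ℕ → Bool) (hs : ℕ → ℕ → ℕ) (e j : ℕ) : ℕ → ℕ → Bool
  | 0, _ => false
  | v + 1, n => xor (CC D hs e j v n) (act v n &&
      GG D hs e j (CC D hs e j v) v (rep hs v (n % 3 ^ v)) (n - n % 3 ^ v))

/-- The colouring. -/
def col (D : ℕ → ℕ → Bool) (hs : ℕ → ℕ → ℕ) (e j n : ℕ) : Bool := CC D hs e j n n

variable {e j : ℕ}

theorem CC_succ {v n : ℕ} : CC D hs e j (v + 1) n = xor (CC D hs e j v n) (act v n &&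
      GG D hs e j (CC D hs e j v) v (rep hs v (n % 3 ^ v)) (n - n % 3 ^ v)) := rfl

theorem CC_stable {n V : ℕ} (h : n ≤ V) : CC D hs e j V n = col D hs e j n := by
  unfold col
  induction h with
  | refl => rfl
  | @step m hm ih =>
    rw [CC_succ, ih]
    have h1 : dg m n = 0 := by
      by_contra hc
      have := dg_lt hc
      have h2 : n ≤ m := hm
      omega
    simp [act, h1]

theorem term_high {w l v : ℕ} (hw : 0 < w) (hl : 0 < l) (h : Sep w l) (hv : la l < v)
    (hcut : ∃ u ≤ la l, 3 ^ (mu w + 1) ≤ hs (3 ^ u) v) (cc : ℕ → Bool) :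
    (act v (w + l) && GG D hs e j cc v (rep hs v ((w + l) % 3 ^ v))
      ((w + l) - (w + l) % 3 ^ v)) =
    (act v l && GG D hs e j cc v (rep hs v (l % 3 ^ v)) (l - l % 3 ^ v)) := by
  have h1 := mod_pos hl hv
  have h2 := la_mod hl hv
  have h3 : Sep w (l % 3 ^ v) := by
    unfold Pool.Agent.H645R2.HT.Sep at *
    omega
  rw [add_mod_high hl h hv, rep_add hw h1 h3 (by rw [h2]; exact hcut)]
  have h4 : w + l - (w + l % 3 ^ v) = l - l % 3 ^ v := by omega
  rw [h4]
  have h5 : act v (w + l) = act v l := by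
    unfold act
    rw [add_mod_high hl h hv, dg_add_of h hv.le, decide_eq_true h1,
      decide_eq_true (show 0 < w + l % 3 ^ v by omega)]
  rw [h5]

theorem CC_cong {w l V : ℕ} (hw : 0 < w) (hl : 0 < l) (h : Sep w l)
    (hcut : ∀ v, la l < v → ∃ u ≤ la l, 3 ^ (mu w + 1) ≤ hs (3 ^ u) v)
    (hV : la l + 1 ≤ V) :
    xor (CC D hs e j V (w + l)) (CC D hs e j V l) =
      xor (CC D hs e j (la l + 1) (w + l)) (CC D hs e j (la l + 1) l) := by
  induction hV with
  | refl => rfl
  | @step v hv ih =>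
    rw [CC_succ, CC_succ, term_high hw hl h hv (hcut v hv), ← ih]
    generalize (act v l && GG D hs e j (CC D hs e j v) v (rep hs v (l % 3 ^ v))
      (l - l % 3 ^ v)) = a
    generalize CC D hs e j v (w + l) = b
    generalize CC D hs e j v l = c
    cases a <;> cases b <;> cases c <;> rfl

theorem CC_low {l : ℕ} (V : ℕ) (hV : V ≤ la l + 1) : CC D hs e j V l = false := by
  induction V with
  | zero => rfl
  | succ v ih =>
    rw [CC_succ, ih (by omega)]
    have h1 : act v l = false := by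
      unfold act
      rw [mod_la (show v ≤ la l by omega)]
      simp
    rw [h1]
    rfl

/-- If the candidate used at `(x, l)` is `x`, then `x + l` and `l` have different colours. -/
theorem col_ne {x l : ℕ} (hx : 0 < x) (hl : 0 < l) (h : Sep x l)
    (hcut : ∀ v, la l < v → ∃ u ≤ la l, 3 ^ (mu x + 1) ≤ hs (3 ^ u) v)
    (hp : pk D hs e j (la l) (rep hs (la l) x) l < la l)
    (hpx : (pk D hs e j (la l) (rep hs (la l) x) l).unpair.1 = x) :
    col D hs e j (x + l) ≠ col D hs e j l := by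
  have hlal : la l < l := dg_lt (mem_L.1 (la_mem hl))
  rw [← CC_stable (D := D) (hs := hs) (e := e) (j := j) (le_refl (x + l)),
    ← CC_stable (D := D) (hs := hs) (e := e) (j := j) (show l ≤ x + l by omega)]
  have h1 := CC_cong (D := D) (hs := hs) (e := e) (j := j) (V := x + l) hx hl h hcut (by omega)
  have h2 : CC D hs e j (la l + 1) (x + l) = true := by
    rw [CC_succ, add_mod_la hl h, show x + l - x = l by omega]
    have h3 : act (la l) (x + l) = true := by
      unfold act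
      rw [add_mod_la hl h, dg_add_of h le_rfl, decide_eq_true hx,
        decide_eq_true (mem_L.1 (la_mem hl))]
      rfl
    unfold GG
    rw [h3, decide_eq_true hp, hpx, Bool.true_and, Bool.true_and]
    cases CC D hs e j (la l) (x + l) <;> rfl
  rw [h2, CC_low _ le_rfl] at h1
  intro hc
  rw [hc] at h1
  revert h1
  cases CC D hs e j (x + l) l <;> decide

end Pool.Agent.T2h24.AV
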