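import Pool.Agent.T2h24.HC.Av

/-!
Avoiding a sparse `Σ⁰₄` set: computability of the colouring, typical sums, and the avoidance
theorem.
-/

namespace Pool.Agent.T2h24.AV

open Encodable Filter Pool.Agent.H645R2.HT Pool.Agent.Helper446 Pool.Agent.Helper446.RE
  Pool.Agent.TH747.HS
open Pool.Agent.TH747.HT (act add_mod_la dg_mod dg_mod_high mod_pos la_mod add_mod_high c_pow3
  c_mod comp_rec3 Psi Idem exists_idem FSm)
open Pool.Agent.T2h24.HC (exists_ix)

variable {D : ℕ → ℕ → Bool} {hs : ℕ → ℕ → ℕ}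

section comp

variable {α : Type*} [Primcodable α]

theorem c_cutA (hh : Computable fun x : ℕ × ℕ => hs x.1 x.2) {f g k : α → ℕ} (hf : Computable f)
    (hg : Computable g) (hk : Computable k) : Computable fun a => cutA hs (f a) (g a) (k a) := by
  have hm : Computable fun a => g a % 3 ^ k a := c_mod hg (c_pow3 hk)
  have h1 : Computable fun a => decide (dg (k a) (g a) ≠ 0) := by
    have h2 : Computable fun a => !(decide (dg (k a) (g a) = 0)) :=
      cnot (c_deq (by fun_prop) (by fun_prop))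
    exact h2.of_eq fun a => (decide_not ..).symm
  unfold cutA
  refine cand h1 (cand (c_dlt (by fun_prop) hm) ?_)
  refine computable_exB (q := fun (a : α) u =>
    decide (3 ^ (mu (g a % 3 ^ k a) + 1) ≤ hs (3 ^ u) (f a))) (f := fun a => k a + 1) ?_
    (by fun_prop)
  unfold Computable₂
  have e1 : Computable fun x : α × ℕ => 3 ^ (mu (g x.1 % 3 ^ k x.1) + 1) := by
    refine c_pow3 ?_
    have := hm.comp (f := fun a => g a % 3 ^ k a) (g := fun x : α × ℕ => x.1) Computable.fst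
    fun_prop
  have e2 : Computable fun x : α × ℕ => hs (3 ^ x.2) (f x.1) :=
    hh.comp (g := fun x : α × ℕ => (3 ^ x.2, f x.1))
      (Computable.pair (c_pow3 Computable.snd) (hf.comp Computable.fst))
  have e3 : Computable fun x : α × ℕ =>
      !(decide (hs (3 ^ x.2) (f x.1) < 3 ^ (mu (g x.1 % 3 ^ k x.1) + 1))) :=
    cnot (c_dlt e2 e1)
  refine e3.of_eq fun x => ?_
  rw [Bool.eq_iff_iff]
  simp

theorem c_rep (hh : Computable fun x : ℕ × ℕ => hs x.1 x.2) {f g : α → ℕ} (hf : Computable f)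
    (hg : Computable g) : Computable fun a => rep hs (f a) (g a) := by
  have h1 : Computable fun a => lst (fun i => cutA hs (f a) (g a) (mu (g a) - i))
      (mu (g a) + 1) := by
    refine c_lst (q := fun (a : α) i => cutA hs (f a) (g a) (mu (g a) - i)) ?_ (by fun_prop)
    exact c_cutA hh (by fun_prop) (by fun_prop) (by fun_prop)
  have h2 : Computable fun a => cp hs (f a) (g a) := by
    unfold cp
    fun_prop
  have h3 : Computable fun a => g a % 3 ^ cp hs (f a) (g a) := c_mod hg (c_pow3 h2)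
  unfold rep
  fun_prop

theorem c_pk (hD : Computable fun x : ℕ × ℕ => D x.1 x.2)
    (hh : Computable fun x : ℕ × ℕ => hs x.1 x.2) (e : ℕ) {j v r l : α → ℕ}
    (hj : Computable j) (hv : Computable v) (hr : Computable r) (hl : Computable l) :
    Computable fun a => pk D hs e (j a) (v a) (r a) (l a) := by
  unfold pk
  refine c_lst (q := fun (a : α) p => tst D hs e (j a) (v a) (r a) (l a) p) ?_ (by fun_prop)
  unfold tst
  have h1 : Computable fun x : α × ℕ => D (Nat.pair e (Nat.pair (j x.1) x.2)) (l x.1) :=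
    hD.comp (g := fun x : α × ℕ => (Nat.pair e (Nat.pair (j x.1) x.2), l x.1)) (by fun_prop)
  have h2 : Computable fun x : α × ℕ => rep hs (v x.1) x.2.unpair.1 :=
    c_rep hh (by fun_prop) (by fun_prop)
  have h3 : Computable fun x : α × ℕ => r x.1 := by fun_prop
  exact cand h1 (cand (c_dlt (by fun_prop) (by fun_prop)) (cand (c_dlt (by fun_prop)
    (by fun_prop)) (c_deq h2 h3)))

theorem c_CC (hD : Computable fun x : ℕ × ℕ => D x.1 x.2)
    (hh : Computable fun x : ℕ × ℕ => hs x.1 x.2) (e : ℕ) :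
    Computable fun x : ℕ × ℕ => CC D hs e x.2.unpair.1 x.1 x.2.unpair.2 := by
  have hm : Computable fun y : ℕ × ℕ => y.2.unpair.2 % 3 ^ y.1 :=
    c_mod (by fun_prop) (c_pow3 (by fun_prop))
  have htop : Computable fun y : ℕ × ℕ => y.2.unpair.2 - y.2.unpair.2 % 3 ^ y.1 := by fun_prop
  have hrep : Computable fun y : ℕ × ℕ => rep hs y.1 (y.2.unpair.2 % 3 ^ y.1) :=
    c_rep hh Computable.fst hm
  have hpk : Computable fun y : ℕ × ℕ => pk D hs e y.2.unpair.1 y.1
      (rep hs y.1 (y.2.unpair.2 % 3 ^ y.1)) (y.2.unpair.2 - y.2.unpair.2 % 3 ^ y.1) :=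
    c_pk hD hh e (by fun_prop) (by fun_prop) hrep htop
  refine comp_rec3 (F := fun y : (ℕ × ℕ) × (Bool × Bool × Bool) =>
      xor y.2.1 (act y.1.1 y.1.2.unpair.2 &&
        (decide (pk D hs e y.1.2.unpair.1 y.1.1
          (rep hs y.1.1 (y.1.2.unpair.2 % 3 ^ y.1.1))
          (y.1.2.unpair.2 - y.1.2.unpair.2 % 3 ^ y.1.1) <
          la (y.1.2.unpair.2 - y.1.2.unpair.2 % 3 ^ y.1.1)) && !(y.2.2.1))))
    (p := fun y => Nat.pair y.2.unpair.1 ((pk D hs e y.2.unpair.1 y.1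
      (rep hs y.1 (y.2.unpair.2 % 3 ^ y.1))
      (y.2.unpair.2 - y.2.unpair.2 % 3 ^ y.1)).unpair.1 +
        (y.2.unpair.2 - y.2.unpair.2 % 3 ^ y.1)))
    (q := fun y => y.2)
    (A := fun v m => CC D hs e m.unpair.1 v m.unpair.2) ?_ ?_ ?_ (fun m => rfl) ?_
  · have a1 : Computable fun y : (ℕ × ℕ) × (Bool × Bool × Bool) =>
        act y.1.1 y.1.2.unpair.2 := by
      unfold act
      refine cand (cdecide (RE.cp_eq (f := fun y : (ℕ × ℕ) × (Bool × Bool × Bool) =>
        dg y.1.1 y.1.2.unpair.2) (g := fun _ => 0) (by fun_prop) (by fun_prop)).not) ?_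
      exact c_dlt (f := fun _ => 0) (g := fun y : (ℕ × ℕ) × (Bool × Bool × Bool) =>
        y.1.2.unpair.2 % 3 ^ y.1.1) (by fun_prop) (hm.comp Computable.fst)
    have a2 : Computable fun y : (ℕ × ℕ) × (Bool × Bool × Bool) =>
        decide (pk D hs e y.1.2.unpair.1 y.1.1
          (rep hs y.1.1 (y.1.2.unpair.2 % 3 ^ y.1.1))
          (y.1.2.unpair.2 - y.1.2.unpair.2 % 3 ^ y.1.1) <
          la (y.1.2.unpair.2 - y.1.2.unpair.2 % 3 ^ y.1.1)) :=
      c_dlt (hpk.comp Computable.fst)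
        ((c_la htop).comp (g := fun y : (ℕ × ℕ) × (Bool × Bool × Bool) => y.1) Computable.fst)
    fun_prop
  · fun_prop
  · fun_prop
  · intro v m
    simp only [Nat.unpair_pair]
    rfl

theorem c_col (hD : Computable fun x : ℕ × ℕ => D x.1 x.2)
    (hh : Computable fun x : ℕ × ℕ => hs x.1 x.2) (e : ℕ) :
    Computable fun x : ℕ × ℕ => col D hs e x.1 x.2 := by
  have h := (c_CC hD hh e).comp (g := fun x : ℕ × ℕ => (x.2, Nat.pair x.1 x.2)) (by fun_prop)
  unfold col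
  simpa only [Nat.unpair_pair] using h

end comp

/-- Numbers with the same representative are close to each other. -/
theorem rep_near {h : ℕ → ℕ} (hm : Monotone h) {x y : ℕ}
    (he : rep (fun x _ => h x) 0 y = rep (fun x _ => h x) 0 x) : y ≤ x + h x ∧ x ≤ y + h y := by
  rcases Nat.lt_trichotomy x y with h1 | h1 | h1
  · refine ⟨?_, by omega⟩
    by_contra hc
    exact rep_inj hm h1 (by omega) he.symm
  · subst h1; omega
  · refine ⟨by omega, ?_⟩
    by_contra hc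
    exact rep_inj hm h1 (by omega) he

/-- In the class of every element `x` of the set there is an element `y` of the set such that the
colours of `y + l` and of `l` are different for typical `l`. -/
theorem typ_ne {S : ℕ → Prop} {e j : ℕ} {h : ℕ → ℕ} (hm : Monotone h)
    (hub : ∀ N, ∃ x, N ≤ h x) (hlim : ∀ x, ∃ N, ∀ s, N ≤ s → hs x s = h x)
    (hS : ∀ x, S x ↔ ∃ a, Psi W0 (Nat.pair e (Nat.pair j (Nat.pair x a))))
    {x : ℕ} (hx : 0 < x) (hSx : S x) :
    ∃ y, 0 < y ∧ S y ∧ (y ≤ x + h x ∧ x ≤ y + h y) ∧ ∀ V : Ultrafilter ℕ, FarU V →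
      Sm V 3 (fun l => col (D3k W0 3) hs e j (y + l) ≠ col (D3k W0 3) hs e j l) := by
  classical
  have hex : ∃ p : ℕ, 0 < p.unpair.1 ∧ Psi W0 (Nat.pair e (Nat.pair j p)) ∧
      rep (fun x _ => h x) 0 p.unpair.1 = rep (fun x _ => h x) 0 x := by
    obtain ⟨a, ha⟩ := (hS x).1 hSx
    exact ⟨Nat.pair x a, by simpa using hx, ha, by simp⟩
  obtain ⟨hp1, hp2, hp3⟩ := Nat.find_spec hex
  have hmin : ∀ p : ℕ, 0 < p.unpair.1 → Psi W0 (Nat.pair e (Nat.pair j p)) →
      rep (fun x _ => h x) 0 p.unpair.1 = rep (fun x _ => h x) 0 x →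
      Nat.find hex ≤ p := fun p h1 h2 h3 => Nat.find_min' hex ⟨h1, h2, h3⟩
  generalize Nat.find hex = p0 at hp1 hp2 hp3 hmin
  have hSp : S p0.unpair.1 := (hS _).2 ⟨p0.unpair.2, by rw [Nat.pair_unpair]; exact hp2⟩
  refine ⟨p0.unpair.1, hp1, hSp, rep_near hm hp3, fun V hV => ?_⟩
  generalize hy : p0.unpair.1 = y at *
  -- a stage at which the approximation is correct
  have hst : ∀ B, ∃ N, ∀ v, N ≤ v → ∀ u ≤ B, hs (3 ^ u) v = h (3 ^ u) := by
    intro B
    induction B with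
    | zero =>
      obtain ⟨N, hN⟩ := hlim (3 ^ 0)
      exact ⟨N, fun v hv u hu => by rw [Nat.le_zero.1 hu]; exact hN v hv⟩
    | succ B ih =>
      obtain ⟨N, hN⟩ := ih
      obtain ⟨N', hN'⟩ := hlim (3 ^ (B + 1))
      refine ⟨max N N', fun v hv u hu => ?_⟩
      rcases Nat.le_succ_iff.1 hu with h1 | h1
      · exact hN v (by omega) u h1
      · rw [h1]; exact hN' v (by omega)
  obtain ⟨B, hB⟩ : ∃ B, ∀ p ≤ p0, mu p.unpair.1 ≤ B := by
    refine ⟨(Finset.range (p0 + 1)).sup fun p => mu p.unpair.1, fun p hp => ?_⟩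
    exact Finset.le_sup (f := fun p : ℕ => mu p.unpair.1)
      (Finset.mem_range.2 (Nat.lt_succ_of_le hp))
  obtain ⟨u0, hu0⟩ : ∃ u, 3 ^ (mu y + 1) ≤ h (3 ^ u) := by
    obtain ⟨z, hz⟩ := hub (3 ^ (mu y + 1))
    exact ⟨z, hz.trans (hm (Nat.lt_pow_self (by norm_num)).le)⟩
  obtain ⟨N, hN⟩ := hst (max B u0)
  refine Sm_mono ?_ (Sm_and (Sm_far hV (k := 3) (by norm_num) (p0 + B + u0 + N))
    (Sm_finset (Finset.range (p0 + 1))
      (P := fun p l => (D3k W0 3 (Nat.pair e (Nat.pair j p)) l = true ↔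
        Psi W0 (Nat.pair e (Nat.pair j p))))
      fun p _ => limDec mon_W0 hV le_rfl _))
  rintro l ⟨⟨hl0, hl1⟩, hl2⟩
  have hrep : ∀ p ≤ p0, rep hs (la l) p.unpair.1 = rep (fun x _ => h x) 0 p.unpair.1 := by
    intro p hp
    exact rep_congr fun u hu => hN _ (by omega) u (by have := hB p hp; omega)
  have hmy : mu y ≤ B := by rw [← hy]; exact hB p0 le_rfl
  have hry : rep hs (la l) y = rep (fun x _ => h x) 0 x := by
    rw [← hp3, ← hy]
    exact hrep p0 le_rfl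
  have hq : tst (D3k W0 3) hs e j (la l) (rep hs (la l) y) l p0 = true := by
    rw [tst_iff, hy]
    exact ⟨(hl2 p0 (Finset.self_mem_range_succ p0)).2 hp2, hp1, by omega, rfl⟩
  obtain ⟨h1, h2, h3⟩ := lst_lt_of (q := tst (D3k W0 3) hs e j (la l) (rep hs (la l) y) l)
    (n := la l) (i := p0) (by omega) hq
  change pk (D3k W0 3) hs e j (la l) (rep hs (la l) y) l ≤ p0 at h1
  change pk (D3k W0 3) hs e j (la l) (rep hs (la l) y) l < la l at h2
  have h5 : pk (D3k W0 3) hs e j (la l) (rep hs (la l) y) l = p0 := by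
    refine le_antisymm h1 ?_
    change tst (D3k W0 3) hs e j (la l) (rep hs (la l) y) l
      (pk (D3k W0 3) hs e j (la l) (rep hs (la l) y) l) = true at h3
    rw [tst_iff] at h3
    obtain ⟨t1, t2, -, t3⟩ := h3
    refine hmin _ t2 ((hl2 _ (Finset.mem_range.2 (Nat.lt_succ_of_le h1))).1 t1) ?_
    rw [← hrep _ h1, t3, hry]
  have hsep : Sep y l := by
    unfold Pool.Agent.H645R2.HT.Sep
    omega
  refine col_ne hp1 hl0 hsep ?_ h2 (by rw [h5, hy])
  intro v hv
  refine ⟨u0, by omega, ?_⟩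
  rw [hN v (by omega) u0 (by omega)]
  exact hu0

/-- `y` is not a sum of elements of a solution, and not an element of a set for which the colour
is constant on the sums of three and of four elements. -/
def Avoided (c : ℕ → Bool) (y : ℕ) : Prop :=
  ∀ (X : Set ℕ) (i : Bool), 0 ∉ X →
    ((X.Infinite ∧ ∀ F : Finset ℕ, (F : Set ℕ) ⊆ X → F.Nonempty → c (∑ n ∈ F, n) = i) →
      ∀ F : Finset ℕ, (F : Set ℕ) ⊆ X → F.Nonempty → ∑ n ∈ F, n ≠ y) ∧
    (((∀ N, ∃ x ∈ X, 3 ^ N ∣ x) ∧ ∀ F : Finset ℕ, (F : Set ℕ) ⊆ X →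
        (F.card = 3 ∨ F.card = 4) → c (∑ n ∈ F, n) = i) → y ∉ X)

theorem avoided_of {c : ℕ → Bool} {y : ℕ}
    (h : ∀ V : Ultrafilter ℕ, FarU V → Sm V 3 (fun l => c (y + l) ≠ c l)) : Avoided c y := by
  intro X i h0
  refine ⟨?_, ?_⟩
  · rintro ⟨hX, hc⟩ F hF hne rfl
    have hpos : ∀ x ∈ X, 0 < x := fun x hx => Nat.pos_of_ne_zero fun h => h0 (h ▸ hx)
    obtain ⟨U, hU, hUX⟩ := exists_idem hX hpos
    have h1 := (Sm_idem hU (k := 3) (by norm_num)).1 (h U (farU_idem hU))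
    obtain ⟨n, ⟨G, g1, g2, g3, rfl⟩, hn⟩ := ((hUX F).and h1).exists
    apply hn
    rw [hc G g2 g1, ← Finset.sum_union g3]
    refine hc _ ?_ (hne.mono Finset.subset_union_left)
    rw [Finset.coe_union]
    exact Set.union_subset hF g2
  · rintro ⟨hX, hc⟩ hyX
    obtain ⟨V, hV, hVX⟩ := exists_farU h0 hX
    obtain ⟨l, ⟨G, g1, g2, g3, rfl⟩, hl⟩ := Sm_exists (Sm_and (Sm_mem hV hVX (k := 3) y)
      (h V hV))
    apply hl
    have h4 : y ∉ G := fun h' => absurd (g3 y h') (lt_irrefl _)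
    have e1 := Finset.sum_insert (f := fun x : ℕ => x) h4
    rw [hc G g1 (Or.inl g2), ← e1]
    refine hc _ ?_ (Or.inr ?_)
    · rw [Finset.coe_insert]
      exact Set.insert_subset hyX g1
    · rw [Finset.card_insert_of_notMem h4, g2]

/-- The avoidance theorem. -/
theorem avoid {R : ℕ → ℕ → ℕ → ℕ → ℕ → ℕ → Bool}
    (hR : Computable fun x : ℕ × ℕ × ℕ × ℕ × ℕ × ℕ =>
      R x.1 x.2.1 x.2.2.1 x.2.2.2.1 x.2.2.2.2.1 x.2.2.2.2.2)
    {h : ℕ → ℕ} (hm : Monotone h) (hub : ∀ N, ∃ x, N ≤ h x)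
    (hh : Computable fun x : ℕ × ℕ => hs x.1 x.2)
    (hlim : ∀ x, ∃ N, ∀ s, N ≤ s → hs x s = h x) :
    ∃ C : ℕ → ℕ → Bool, Computable (fun x : ℕ × ℕ => C x.1 x.2) ∧
      ∀ j x, 0 < x → Sig4 R j x →
        ∃ y, Sig4 R j y ∧ (y ≤ x + h x ∧ x ≤ y + h y) ∧ Avoided (C j) y := by
  obtain ⟨e, he⟩ := exists_ix hR
  refine ⟨col (D3k W0 3) hs e, c_col (c_D3k c_W0 3) hh e, fun j x hx hSx => ?_⟩
  have hS : ∀ x, Sig4 R j x ↔ ∃ a, Psi W0 (Nat.pair e (Nat.pair j (Nat.pair x a))) := by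
    intro x
    unfold Sig4
    refine exists_congr fun a => ?_
    rw [he]
    simp only [Nat.unpair_pair]
  obtain ⟨y, -, hy1, hy2, hy3⟩ := typ_ne (hs := hs) hm hub hlim hS hx hSx
  exact ⟨y, hy1, hy2, avoided_of hy3⟩

end Pool.Agent.T2h24.AV
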