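import Pool.Agent.TH747.HS.FS

/-!
The colour of the solutions of Hindman's theorem realises the choice of a number below `k` in a
`Σ⁰₄` relation.
-/

namespace Pool.Agent.T2h24.HC

open Encodable Filter Pool.Agent.H645R2.HT Pool.Agent.Helper446 Pool.Agent.Helper446.RE
  Pool.Agent.TH747.HS
open Pool.Agent.TH747.HT hiding dl el c_dl c_el
open Nat.Partrec (Code)

/-- The test for a candidate `p = ⟨i, a⟩`. -/
def tst (e k j l p : ℕ) : Bool :=
  decide (p.unpair.1 < k) && D3k W0 3 (Nat.pair e (Nat.pair j p)) l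

/-- The colouring with index `j`. -/
def CC (e k j l : ℕ) : ℕ :=
  bif decide (lst (tst e k j l) (la l) < la l) then (lst (tst e k j l) (la l)).unpair.1 else 0

theorem CC_lt {e k j l : ℕ} (hk : 0 < k) : CC e k j l < k := by
  unfold CC
  by_cases h : lst (tst e k j l) (la l) < la l
  · simp only [h, decide_true, cond_true]
    have h1 := lst_of_lt h
    unfold tst at h1
    rw [Bool.and_eq_true, decide_eq_true_eq] at h1
    exact h1.1
  · simp only [h, decide_false, cond_false]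
    exact hk

theorem c_CC (e k : ℕ) : Computable fun x : ℕ × ℕ => CC e k x.1 x.2 := by
  have h0 : Computable fun x : (ℕ × ℕ) × ℕ => tst e k x.1.1 x.1.2 x.2 := by
    unfold tst
    refine cand (c_dlt (by fun_prop) (by fun_prop)) ?_
    exact (c_D3k c_W0 3).comp (g := fun x : (ℕ × ℕ) × ℕ =>
      (Nat.pair e (Nat.pair x.1.1 x.2), x.1.2)) (by fun_prop)
  have h1 : Computable fun x : ℕ × ℕ => lst (tst e k x.1 x.2) (la x.2) :=
    c_lst (q := fun (x : ℕ × ℕ) p => tst e k x.1 x.2 p) h0 (by fun_prop)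
  unfold CC
  refine ccond (c_dlt h1 (by fun_prop)) ?_ (by fun_prop)
  fun_prop

/-- An index for the matrix of a `Σ⁰₄` relation. -/
theorem exists_ix {R : ℕ → ℕ → ℕ → ℕ → ℕ → ℕ → Bool}
    (hR : Computable fun x : ℕ × ℕ × ℕ × ℕ × ℕ × ℕ =>
      R x.1 x.2.1 x.2.2.1 x.2.2.2.1 x.2.2.2.2.1 x.2.2.2.2.2) :
    ∃ e, ∀ j p, Psi W0 (Nat.pair e (Nat.pair j p)) ↔
      ∀ b, ∃ t, ∀ u, R j p.unpair.1 p.unpair.2 b t u = true := by
  have h1 : REPred fun w : ℕ => ∃ u, R w.unpair.1.unpair.1 w.unpair.1.unpair.2.unpair.1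
      w.unpair.1.unpair.2.unpair.2 w.unpair.2.unpair.1 w.unpair.2.unpair.2 u = false := by
    refine RE.exN (p := fun (w : ℕ) u => R w.unpair.1.unpair.1 w.unpair.1.unpair.2.unpair.1
      w.unpair.1.unpair.2.unpair.2 w.unpair.2.unpair.1 w.unpair.2.unpair.2 u = false) ?_
    refine RE.eq ?_ (by fun_prop)
    exact hR.comp (g := fun x : ℕ × ℕ => (x.1.unpair.1.unpair.1,
      x.1.unpair.1.unpair.2.unpair.1, x.1.unpair.1.unpair.2.unpair.2,
      x.1.unpair.2.unpair.1, x.1.unpair.2.unpair.2, x.2)) (by fun_prop)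
  obtain ⟨e, he⟩ := univ_W0 h1
  refine ⟨e, fun j p => ?_⟩
  rw [Psi_W0]
  refine forall_congr' fun b => exists_congr fun c => ?_
  unfold ix
  simp only [Nat.unpair_pair]
  rw [← he]
  simp only [Nat.unpair_pair]
  push Not
  refine forall_congr' fun u => ?_
  simp

/-- Along every far ultrafilter the colour is the first component of the least candidate. -/
theorem typ {R : ℕ → ℕ → ℕ → ℕ → ℕ → ℕ → Bool} {e : ℕ}
    (he : ∀ j p, Psi W0 (Nat.pair e (Nat.pair j p)) ↔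
      ∀ b, ∃ t, ∀ u, R j p.unpair.1 p.unpair.2 b t u = true) {k j : ℕ}
    (h : ∃ i < k, Sig4 R j i) :
    ∃ i < k, Sig4 R j i ∧ ∀ V : Ultrafilter ℕ, FarU V → Sm V 3 (fun l => CC e k j l = i) := by
  classical
  have hex : ∃ p : ℕ, p.unpair.1 < k ∧ Psi W0 (Nat.pair e (Nat.pair j p)) := by
    obtain ⟨i, hi, a, ha⟩ := h
    refine ⟨Nat.pair i a, ?_, ?_⟩
    · simpa using hi
    · rw [he]
      simpa using ha
  obtain ⟨hk0, hp0⟩ := Nat.find_spec hex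
  have hmin : ∀ p : ℕ, p.unpair.1 < k → Psi W0 (Nat.pair e (Nat.pair j p)) →
      Nat.find hex ≤ p := fun p h1 h2 => Nat.find_min' hex ⟨h1, h2⟩
  generalize Nat.find hex = p0 at hk0 hp0 hmin
  refine ⟨p0.unpair.1, hk0, ⟨p0.unpair.2, (he j p0).1 hp0⟩, fun V hV => ?_⟩
  refine Sm_mono ?_ (Sm_and (Sm_far hV (k := 3) (by norm_num) p0)
    (Sm_finset (Finset.range (p0 + 1))
      (P := fun p l => (D3k W0 3 (Nat.pair e (Nat.pair j p)) l = true ↔
        Psi W0 (Nat.pair e (Nat.pair j p))))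
      fun p _ => limDec mon_W0 hV le_rfl _))
  rintro l ⟨⟨hl0, hl1⟩, hl2⟩
  have hq : tst e k j l p0 = true := by
    unfold tst
    rw [Bool.and_eq_true, decide_eq_true_eq]
    exact ⟨hk0, (hl2 p0 (Finset.self_mem_range_succ p0)).2 hp0⟩
  obtain ⟨h1, h2, h3⟩ := lst_lt_of (q := tst e k j l) hl1 hq
  have h4 : p0 ≤ lst (tst e k j l) (la l) := by
    unfold tst at h3
    rw [Bool.and_eq_true, decide_eq_true_eq] at h3
    exact hmin _ h3.1 ((hl2 _ (Finset.mem_range.2 (Nat.lt_succ_of_le h1))).1 h3.2)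
  have h5 : lst (tst e k j l) (la l) = p0 := le_antisymm h1 h4
  unfold CC
  rw [h5]
  simp [hl1]

/-- The infinite set `X` of positive integers is a solution of Hindman's theorem for the
colouring `c`, and all its finite sums have the colour `i`. -/
def SolH (c : ℕ → ℕ) (X : Set ℕ) (i : ℕ) : Prop :=
  X.Infinite ∧ 0 ∉ X ∧ ∀ F : Finset ℕ, (F : Set ℕ) ⊆ X → F.Nonempty → c (∑ n ∈ F, n) = i

/-- The set `X` of positive integers contains multiples of all powers of `3`, and all sums of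
exactly three elements of `X` have the colour `i`. -/
def Sol3 (c : ℕ → ℕ) (X : Set ℕ) (i : ℕ) : Prop :=
  (∀ N, ∃ x ∈ X, 3 ^ N ∣ x) ∧ 0 ∉ X ∧
    ∀ F : Finset ℕ, (F : Set ℕ) ⊆ X → F.card = 3 → c (∑ n ∈ F, n) = i

theorem solH_eq {c : ℕ → ℕ} {X : Set ℕ} {i i' : ℕ} (h : SolH c X i')
    (hV : ∀ V : Ultrafilter ℕ, FarU V → Sm V 3 (fun l => c l = i)) : i' = i := by
  obtain ⟨hX, h0, hc⟩ := h
  obtain ⟨U, hU, hUX⟩ := exists_idem hX
    (fun x hx => Nat.pos_of_ne_zero fun h => h0 (h ▸ hx))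
  have h1 := (Sm_idem hU (k := 3) (by norm_num)).1 (hV U (farU_idem hU))
  obtain ⟨n, ⟨G, g1, g2, -, rfl⟩, hn⟩ := ((hUX ∅).and h1).exists
  rw [← hn, hc G g2 g1]

theorem sol3_eq {c : ℕ → ℕ} {X : Set ℕ} {i i' : ℕ} (h : Sol3 c X i')
    (hV : ∀ V : Ultrafilter ℕ, FarU V → Sm V 3 (fun l => c l = i)) : i' = i := by
  obtain ⟨hX, h0, hc⟩ := h
  obtain ⟨V, hV1, hVX⟩ := exists_farU h0 hX
  obtain ⟨l, ⟨G, g1, g2, -, rfl⟩, hl⟩ := Sm_exists (Sm_and (Sm_mem hV1 hVX (k := 3) 0) (hV V hV1))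
  rw [← hl, hc G g1 g2]

/-- The version for sequences. -/
theorem seqv {R : ℕ → ℕ → ℕ → ℕ → ℕ → ℕ → Bool}
    (hR : Computable fun x : ℕ × ℕ × ℕ × ℕ × ℕ × ℕ =>
      R x.1 x.2.1 x.2.2.1 x.2.2.2.1 x.2.2.2.2.1 x.2.2.2.2.2) {k : ℕ} (hk : 0 < k) :
    ∃ C : ℕ → ℕ → ℕ, Computable (fun x : ℕ × ℕ => C x.1 x.2) ∧ (∀ j n, C j n < k) ∧
      ∀ j, (∃ i < k, Sig4 R j i) → ∃ i < k, Sig4 R j i ∧
        ∀ X i', SolH (C j) X i' ∨ Sol3 (C j) X i' → i' = i := by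
  obtain ⟨e, he⟩ := exists_ix hR
  refine ⟨CC e k, c_CC e k, fun j n => CC_lt hk, fun j hj => ?_⟩
  obtain ⟨i, hi, h1, h2⟩ := typ he hj
  refine ⟨i, hi, h1, ?_⟩
  rintro X i' (h3 | h3)
  · exact solH_eq h3 h2
  · exact sol3_eq h3 h2

/-- The version with an index of the colouring as parameter. -/
theorem fixv {R : ℕ → ℕ → ℕ → ℕ → ℕ → ℕ → Bool}
    (hR : Computable fun x : ℕ × ℕ × ℕ × ℕ × ℕ × ℕ =>
      R x.1 x.2.1 x.2.2.1 x.2.2.2.1 x.2.2.2.2.1 x.2.2.2.2.2) {k : ℕ} (hk : 0 < k) :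
    ∃ (e : Code) (c : ℕ → ℕ), (∀ n, e.eval n = Part.some (c n)) ∧ (∀ n, c n < k) ∧
      ((∃ i < k, Sig4 R (encode e) i) → ∃ i < k, Sig4 R (encode e) i ∧
        ∀ X i', SolH c X i' ∨ Sol3 c X i' → i' = i) := by
  obtain ⟨C, hC, hCk, hC2⟩ := seqv hR hk
  have h1 : Partrec₂ fun (e : Code) (n : ℕ) => (Part.some (C (encode e) n) : Part ℕ) := by
    have h2 : Computable fun x : Code × ℕ => C (encode x.1) x.2 :=
      hC.comp (g := fun x : Code × ℕ => (encode x.1, x.2))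
        (Computable.pair (Computable.encode.comp Computable.fst) Computable.snd)
    exact h2.partrec
  obtain ⟨e, he⟩ := Nat.Partrec.Code.fixed_point₂ h1
  exact ⟨e, C (encode e), fun n => by rw [he], hCk _, hC2 _⟩

/-- The result of the computation of the code with number `e` in `s` steps on the input `m`. -/
def evn (e s m : ℕ) : ℕ := encode (Code.evaln s (Denumerable.ofNat Code e) m)

theorem c_evn {α : Type*} [Primcodable α] {f g h : α → ℕ} (hf : Computable f) (hg : Computable g)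
    (hh : Computable h) : Computable fun a => evn (f a) (g a) (h a) := by
  unfold evn
  refine Computable.encode.comp ?_
  refine Nat.Partrec.Code.primrec_evaln.to_comp.comp
    (g := fun x : α => ((g x, Denumerable.ofNat Code (f x)), h x)) ?_
  exact Computable.pair (Computable.pair hg ((Computable.ofNat Code).comp hf)) hh

theorem evn_iff {c : Code} {m v : ℕ} :
    (∃ s, evn (encode c) s m = v + 1) ↔ v ∈ c.eval m := by
  rw [Nat.Partrec.Code.evaln_complete]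
  refine exists_congr fun s => ?_
  unfold evn
  rw [Denumerable.ofNat_encode]
  cases Code.evaln s c m with
  | none => simp
  | some w => simp [eq_comm]

/-- The relation: some `m` in the section has, by the index, a colour other than `i`. -/
def Rne (R : ℕ → ℕ → ℕ → ℕ → ℕ → ℕ → Bool) (e i a b t u : ℕ) : Bool :=
  R e a.unpair.1 a.unpair.2.unpair.1 b t u &&
    (decide (evn e a.unpair.2.unpair.2.unpair.1 a.unpair.1 =
      a.unpair.2.unpair.2.unpair.2 + 1) && !(decide (a.unpair.2.unpair.2.unpair.2 = i)))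

theorem c_Rne {R : ℕ → ℕ → ℕ → ℕ → ℕ → ℕ → Bool}
    (hR : Computable fun x : ℕ × ℕ × ℕ × ℕ × ℕ × ℕ =>
      R x.1 x.2.1 x.2.2.1 x.2.2.2.1 x.2.2.2.2.1 x.2.2.2.2.2) :
    Computable fun x : ℕ × ℕ × ℕ × ℕ × ℕ × ℕ =>
      Rne R x.1 x.2.1 x.2.2.1 x.2.2.2.1 x.2.2.2.2.1 x.2.2.2.2.2 := by
  unfold Rne
  refine cand ?_ (cand (c_deq (c_evn (by fun_prop) (by fun_prop) (by fun_prop)) (by fun_prop))
    (cnot (c_deq (by fun_prop) (by fun_prop))))
  exact hR.comp (g := fun x : ℕ × ℕ × ℕ × ℕ × ℕ × ℕ => (x.1, x.2.2.1.unpair.1,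
      x.2.2.1.unpair.2.unpair.1, x.2.2.2.1, x.2.2.2.2.1, x.2.2.2.2.2)) (by fun_prop)

theorem sig_Rne {R : ℕ → ℕ → ℕ → ℕ → ℕ → ℕ → Bool} {c : Code} {i : ℕ} :
    Sig4 (Rne R) (encode c) i ↔ ∃ m, Sig4 R (encode c) m ∧ ∃ v, v ∈ c.eval m ∧ v ≠ i := by
  unfold Sig4 Rne
  constructor
  · rintro ⟨a, ha⟩
    have h1 : ∀ b, ∃ t, ∀ u, R (encode c) a.unpair.1 a.unpair.2.unpair.1 b t u = true ∧
        (evn (encode c) a.unpair.2.unpair.2.unpair.1 a.unpair.1 =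
          a.unpair.2.unpair.2.unpair.2 + 1 ∧ a.unpair.2.unpair.2.unpair.2 ≠ i) := by
      intro b
      obtain ⟨t, ht⟩ := ha b
      refine ⟨t, fun u => ?_⟩
      simpa using ht u
    obtain ⟨t0, h0⟩ := h1 0
    refine ⟨a.unpair.1, ⟨a.unpair.2.unpair.1, fun b => ?_⟩, a.unpair.2.unpair.2.unpair.2,
      evn_iff.1 ⟨_, (h0 0).2.1⟩, (h0 0).2.2⟩
    obtain ⟨t, ht⟩ := h1 b
    exact ⟨t, fun u => (ht u).1⟩
  · rintro ⟨m, ⟨a, ha⟩, v, hv, hi⟩
    obtain ⟨s, hs⟩ := evn_iff.2 hv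
    refine ⟨Nat.pair m (Nat.pair a (Nat.pair s v)), fun b => ?_⟩
    obtain ⟨t, ht⟩ := ha b
    refine ⟨t, fun u => ?_⟩
    simp [ht u, hs, hi]

/-- No element of a sum set of a solution can be found from an index with three jumps. -/
theorem elv {R : ℕ → ℕ → ℕ → ℕ → ℕ → ℕ → Bool}
    (hR : Computable fun x : ℕ × ℕ × ℕ × ℕ × ℕ × ℕ =>
      R x.1 x.2.1 x.2.2.1 x.2.2.2.1 x.2.2.2.2.1 x.2.2.2.2.2) {k : ℕ} (hk : 2 ≤ k) :
    ∃ (e : Code) (c : ℕ → ℕ), (∀ n, e.eval n = Part.some (c n)) ∧ (∀ n, c n < k) ∧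
      ((∃ m, Sig4 R (encode e) m) → ∃ m, Sig4 R (encode e) m ∧
        ∀ X i, (SolH c X i → ∀ F : Finset ℕ, (F : Set ℕ) ⊆ X → F.Nonempty → ∑ n ∈ F, n ≠ m) ∧
          (Sol3 c X i → ∀ F : Finset ℕ, (F : Set ℕ) ⊆ X → F.card = 3 → ∑ n ∈ F, n ≠ m)) := by
  obtain ⟨e, c, h1, h2, h3⟩ := fixv (c_Rne hR) (k := k) (by omega)
  refine ⟨e, c, h1, h2, ?_⟩
  rintro ⟨m0, hm0⟩
  have h4 : ∃ i < k, Sig4 (Rne R) (encode e) i := by
    by_cases hc : c m0 = 0
    · exact ⟨1, by omega, sig_Rne.2 ⟨m0, hm0, c m0, by rw [h1]; exact Part.mem_some _, by omega⟩⟩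
    · exact ⟨0, by omega, sig_Rne.2 ⟨m0, hm0, c m0, by rw [h1]; exact Part.mem_some _, hc⟩⟩
  obtain ⟨i, hi, h5, h6⟩ := h3 h4
  obtain ⟨m, hm, v, hv, hne⟩ := sig_Rne.1 h5
  have hcm : c m = v := by
    rw [h1] at hv
    exact (Part.mem_some_iff.1 hv).symm
  refine ⟨m, hm, fun X i' => ⟨fun hs F f1 f2 f3 => ?_, fun hs F f1 f2 f3 => ?_⟩⟩
  · have h7 := h6 X i' (Or.inl hs)
    have h8 := hs.2.2 F f1 f2
    rw [f3] at h8
    omega
  · have h7 := h6 X i' (Or.inr hs)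
    have h8 := hs.2.2 F f1 f2
    rw [f3] at h8
    omega

end Pool.Agent.T2h24.HC
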