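import Pool.Agent.T2h24.HC.Seq

/-!
A function which gives, for every member of a computable sequence of colourings, one element of
the sum set of some solution computes choice functions for all `Σ⁰₄` relations.
-/

namespace Pool.Agent.T2h24.HC

open Encodable Filter Pool.Agent.H645R2.HT Pool.Agent.Helper446 Pool.Agent.Helper446.RE
  Pool.Agent.Helper446.Oracle Pool.Agent.TH747.HS
open Pool.Agent.TH747.HT hiding dl el c_dl c_el

/-- `m` is the sum of a nonempty finite subset of a solution, or the sum of three elements of a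
solution for sums of three elements. -/
def ElemOf (c : ℕ → ℕ) (m : ℕ) : Prop :=
  (∃ X i, SolH c X i ∧ ∃ F : Finset ℕ, (F : Set ℕ) ⊆ X ∧ F.Nonempty ∧ ∑ n ∈ F, n = m) ∨
    ∃ X i, Sol3 c X i ∧ ∃ F : Finset ℕ, (F : Set ℕ) ⊆ X ∧ F.card = 3 ∧ ∑ n ∈ F, n = m

theorem elemOf_col {c : ℕ → ℕ} {m : ℕ} (h : ElemOf c m) :
    ∃ X, SolH c X (c m) ∨ Sol3 c X (c m) := by
  rcases h with ⟨X, i, hX, F, f1, f2, rfl⟩ | ⟨X, i, hX, F, f1, f2, rfl⟩
  · rw [hX.2.2 F f1 f2]
    exact ⟨X, Or.inl hX⟩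
  · rw [hX.2.2 F f1 f2]
    exact ⟨X, Or.inr hX⟩

/-- A computable function of one value of an oracle. -/
theorem red_one {a : ℕ → ℕ} {q : ℕ → ℕ} {G : ℕ → ℕ} (hq : Computable q) (hG : Computable G) :
    TuringReducible (fun n => Part.some (G (Nat.pair n (a (q n)))))
      (fun n => Part.some (a n)) := by
  refine RecursiveIn.iff_nat.2 ?_
  have tot : ∀ {f : ℕ → ℕ}, Computable f → Nat.RecursiveIn {fun n => Part.some (a n)}
      (fun n => Part.some (f n)) := fun hf => Nat.Partrec.recursiveIn (Partrec.nat_iff.1 hf)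
  have hcomp : ∀ {f g : ℕ → ℕ}, Nat.RecursiveIn {fun n => Part.some (a n)}
      (fun n => Part.some (f n)) → Nat.RecursiveIn {fun n => Part.some (a n)}
      (fun n => Part.some (g n)) → Nat.RecursiveIn {fun n => Part.some (a n)}
      (fun n => Part.some (f (g n))) := fun hf hg =>
    (Nat.RecursiveIn.comp hf hg).of_eq fun n => by simp
  have hpair : ∀ {f g : ℕ → ℕ}, Nat.RecursiveIn {fun n => Part.some (a n)}
      (fun n => Part.some (f n)) → Nat.RecursiveIn {fun n => Part.some (a n)}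
      (fun n => Part.some (g n)) → Nat.RecursiveIn {fun n => Part.some (a n)}
      (fun n => Part.some (Nat.pair (f n) (g n))) := fun hf hg =>
    (Nat.RecursiveIn.pair hf hg).of_eq fun n => by simp [Seq.seq]
  have hor : Nat.RecursiveIn {fun n => Part.some (a n)} (fun n => Part.some (a n)) :=
    Nat.RecursiveIn.oracle _ rfl
  exact hcomp (tot hG) (hpair (tot (f := fun n => n) (by fun_prop)) (hcomp hor (tot hq)))

theorem elem_choice {k : ℕ} (hk : 0 < k) {a : ℕ → ℕ} (ha : ∀ j, ElemOf (CU k j) (a j))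
    {R : ℕ → ℕ → ℕ → ℕ → ℕ → ℕ → Bool}
    (hR : Computable fun x : ℕ × ℕ × ℕ × ℕ × ℕ × ℕ =>
      R x.1 x.2.1 x.2.2.1 x.2.2.2.1 x.2.2.2.2.1 x.2.2.2.2.2) :
    ∃ f : ℕ → ℕ, TuringReducible (fun n => Part.some (f n)) (fun n => Part.some (a n)) ∧
      Chooses k R f := by
  obtain ⟨e, he⟩ := CU_sol hR k
  refine ⟨fun j => CU k (Nat.pair e j) (a (Nat.pair e j)), ?_, fun j => CU_lt hk,
    fun j hj => ?_⟩
  · have h := red_one (a := a) (q := fun j => Nat.pair e j)
      (G := fun w : ℕ => CU k (Nat.pair e w.unpair.1) w.unpair.2) (by fun_prop)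
      ((c_CU k).comp (g := fun w : ℕ => (Nat.pair e w.unpair.1, w.unpair.2)) (by fun_prop))
    simpa only [Nat.unpair_pair] using h
  · obtain ⟨X, hX⟩ := elemOf_col (ha (Nat.pair e j))
    exact he j hj _ _ hX

end Pool.Agent.T2h24.HC
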