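import Pool.Agent.T2h24.HC.Col

/-!
Sequences of solutions, and solutions of the iterated Hindman theorem, compute choice functions
for all `Σ⁰₄` relations with values below `k`.
-/

namespace Pool.Agent.T2h24.HC

open Encodable Filter Pool.Agent.H645R2.HT Pool.Agent.Helper446 Pool.Agent.Helper446.RE
  Pool.Agent.Helper446.Oracle Pool.Agent.TH747.HS
open Pool.Agent.TH747.HT hiding dl el c_dl c_el

/-- The universal sequence of colourings. -/
def CU (k j l : ℕ) : ℕ := CC j.unpair.1 k j.unpair.2 l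

theorem CU_lt {k j l : ℕ} (hk : 0 < k) : CU k j l < k := CC_lt hk

theorem c_CU (k : ℕ) : Computable fun x : ℕ × ℕ => CU k x.1 x.2 := by
  have h0 : Computable fun x : (ℕ × ℕ) × ℕ => tst x.1.1.unpair.1 k x.1.1.unpair.2 x.1.2 x.2 := by
    unfold tst
    refine cand (c_dlt (by fun_prop) (by fun_prop)) ?_
    exact (c_D3k c_W0 3).comp (g := fun x : (ℕ × ℕ) × ℕ =>
      (Nat.pair x.1.1.unpair.1 (Nat.pair x.1.1.unpair.2 x.2), x.1.2)) (by fun_prop)
  have h1 : Computable fun x : ℕ × ℕ =>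
      lst (tst x.1.unpair.1 k x.1.unpair.2 x.2) (la x.2) :=
    c_lst (q := fun (x : ℕ × ℕ) p => tst x.1.unpair.1 k x.1.unpair.2 x.2 p) h0 (by fun_prop)
  unfold CU CC
  refine ccond (c_dlt h1 (by fun_prop)) ?_ (by fun_prop)
  fun_prop

/-- The colours of all solutions of all members of the sequence. -/
theorem CU_sol {R : ℕ → ℕ → ℕ → ℕ → ℕ → ℕ → Bool}
    (hR : Computable fun x : ℕ × ℕ × ℕ × ℕ × ℕ × ℕ =>
      R x.1 x.2.1 x.2.2.1 x.2.2.2.1 x.2.2.2.2.1 x.2.2.2.2.2) (k : ℕ) :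
    ∃ e, ∀ j, (∃ i < k, Sig4 R j i) →
      ∀ X i', SolH (CU k (Nat.pair e j)) X i' ∨ Sol3 (CU k (Nat.pair e j)) X i' →
        Sig4 R j i' := by
  obtain ⟨e, he⟩ := exists_ix hR
  refine ⟨e, fun j hj => ?_⟩
  obtain ⟨i, hi, h1, h2⟩ := typ he hj
  have h2' : ∀ V : Ultrafilter ℕ, FarU V → Sm V 3 (fun l => CU k (Nat.pair e j) l = i) := by
    intro V hV
    refine Sm_mono ?_ (h2 V hV)
    intro n hn
    unfold CU
    simpa using hn
  rintro X i' (h3 | h3)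
  · rw [solH_eq h3 h2']; exact h1
  · rw [sol3_eq h3 h2']; exact h1

/-- Both kinds of solutions are infinite, and the sums of three elements have one colour. -/
theorem three {c : ℕ → ℕ} {X : Set ℕ} {i : ℕ} (h : SolH c X i ∨ Sol3 c X i) :
    X.Infinite ∧ ∀ x ∈ X, ∀ y ∈ X, ∀ z ∈ X, x < y → y < z → c (x + (y + z)) = i := by
  have key : ∀ x y z : ℕ, x < y → y < z →
      ({x, y, z} : Finset ℕ).card = 3 ∧ ∑ n ∈ ({x, y, z} : Finset ℕ), n = x + (y + z) := by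
    intro x y z h1 h2
    have h3 : x ∉ ({y, z} : Finset ℕ) := by
      simp only [Finset.mem_insert, Finset.mem_singleton]
      omega
    have h4 : y ≠ z := by omega
    rw [Finset.card_insert_of_notMem h3, Finset.card_pair h4, Finset.sum_insert h3,
      Finset.sum_pair h4]
    exact ⟨rfl, rfl⟩
  have hsub : ∀ x ∈ X, ∀ y ∈ X, ∀ z ∈ X, ((({x, y, z} : Finset ℕ) : Set ℕ) ⊆ X) := by
    intro x hx y hy z hz w hw
    simp only [Finset.coe_insert, Finset.coe_singleton, Set.mem_insert_iff,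
      Set.mem_singleton_iff] at hw
    rcases hw with rfl | rfl | rfl <;> assumption
  rcases h with ⟨h1, h2, h3⟩ | ⟨h1, h2, h3⟩
  · refine ⟨h1, fun x hx y hy z hz hxy hyz => ?_⟩
    rw [← (key x y z hxy hyz).2]
    exact h3 _ (hsub x hx y hy z hz) ⟨x, by simp⟩
  · refine ⟨?_, fun x hx y hy z hz hxy hyz => ?_⟩
    · refine Set.infinite_of_forall_exists_gt fun a => ?_
      obtain ⟨x, hx, hd⟩ := h1 (a + 1)
      have h0 : 0 < x := Nat.pos_of_ne_zero fun h => h2 (h ▸ hx)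
      have h4 := Nat.le_of_dvd h0 hd
      have h5 : a + 1 < 3 ^ (a + 1) := Nat.lt_pow_self (by norm_num)
      exact ⟨x, hx, by omega⟩
    · rw [← (key x y z hxy hyz).2]
      exact h3 _ (hsub x hx y hy z hz) (key x y z hxy hyz).1

/-- `f` chooses, for every `j`, a number below `k` in the section of the `Σ⁰₄` relation, if there
is one. -/
def Chooses (k : ℕ) (R : ℕ → ℕ → ℕ → ℕ → ℕ → ℕ → Bool) (f : ℕ → ℕ) : Prop :=
  (∀ j, f j < k) ∧ ∀ j, (∃ i < k, Sig4 R j i) → Sig4 R j (f j)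

/-- Sequences of solutions. -/
theorem seq_choice {k : ℕ} (hk : 0 < k) {X : ℕ → Set ℕ}
    (hX : ∀ j, ∃ i, SolH (CU k j) (X j) i ∨ Sol3 (CU k j) (X j) i)
    {R : ℕ → ℕ → ℕ → ℕ → ℕ → ℕ → Bool}
    (hR : Computable fun x : ℕ × ℕ × ℕ × ℕ × ℕ × ℕ =>
      R x.1 x.2.1 x.2.2.1 x.2.2.2.1 x.2.2.2.2.1 x.2.2.2.2.2) :
    ∃ f : ℕ → ℕ, REIn {n : ℕ | n.unpair.2 ∈ X n.unpair.1} (fun x : ℕ × ℕ => f x.1 = x.2) ∧
      Chooses k R f := by
  obtain ⟨e, he⟩ := CU_sol hR k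
  choose g hg using hX
  have h3 : ∀ j, ∃ x y z, x < y ∧ y < z ∧ x ∈ X j ∧ y ∈ X j ∧ z ∈ X j := by
    intro j
    obtain ⟨h1, -⟩ := three (hg j)
    obtain ⟨x, hx, -⟩ := h1.exists_gt 0
    obtain ⟨y, hy, hxy⟩ := h1.exists_gt x
    obtain ⟨z, hz, hyz⟩ := h1.exists_gt y
    exact ⟨x, y, z, hxy, hyz, hx, hy, hz⟩
  refine ⟨fun j => g (Nat.pair e j), ?_, fun j => ?_, fun j hj => he j hj _ _ (hg _)⟩
  · have h4 : REIn {n : ℕ | n.unpair.2 ∈ X n.unpair.1} fun p : ℕ × ℕ =>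
        ∃ w : ℕ, (w.unpair.1 < w.unpair.2.unpair.1 ∧ w.unpair.2.unpair.1 < w.unpair.2.unpair.2) ∧
          ((Nat.pair (Nat.pair e p.1) w.unpair.1 ∈ {n : ℕ | n.unpair.2 ∈ X n.unpair.1} ∧
            (Nat.pair (Nat.pair e p.1) w.unpair.2.unpair.1 ∈
                {n : ℕ | n.unpair.2 ∈ X n.unpair.1} ∧
              Nat.pair (Nat.pair e p.1) w.unpair.2.unpair.2 ∈
                {n : ℕ | n.unpair.2 ∈ X n.unpair.1})) ∧
          CU k (Nat.pair e p.1) (w.unpair.1 + (w.unpair.2.unpair.1 + w.unpair.2.unpair.2)) =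
            p.2) := by
      refine REIn.ex (S := fun (p : ℕ × ℕ) (w : ℕ) =>
        (w.unpair.1 < w.unpair.2.unpair.1 ∧ w.unpair.2.unpair.1 < w.unpair.2.unpair.2) ∧
          ((Nat.pair (Nat.pair e p.1) w.unpair.1 ∈ {n : ℕ | n.unpair.2 ∈ X n.unpair.1} ∧
            (Nat.pair (Nat.pair e p.1) w.unpair.2.unpair.1 ∈
                {n : ℕ | n.unpair.2 ∈ X n.unpair.1} ∧
              Nat.pair (Nat.pair e p.1) w.unpair.2.unpair.2 ∈
                {n : ℕ | n.unpair.2 ∈ X n.unpair.1})) ∧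
          CU k (Nat.pair e p.1) (w.unpair.1 + (w.unpair.2.unpair.1 + w.unpair.2.unpair.2)) =
            p.2)) ?_
      refine REIn.and (REIn.of_re (RE.and (RE.lt (by fun_prop) (by fun_prop))
        (RE.lt (by fun_prop) (by fun_prop)))) (REIn.and (REIn.and (REIn.mem (by fun_prop))
          (REIn.and (REIn.mem (by fun_prop)) (REIn.mem (by fun_prop)))) (REIn.of_re ?_))
      refine RE.eq ?_ (by fun_prop)
      exact (c_CU k).comp (g := fun x : (ℕ × ℕ) × ℕ => (Nat.pair e x.1.1,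
        x.2.unpair.1 + (x.2.unpair.2.unpair.1 + x.2.unpair.2.unpair.2))) (by fun_prop)
    refine h4.of_eq fun p => ?_
    simp only [Set.mem_ofPred_eq, Nat.unpair_pair]
    constructor
    · rintro ⟨w, ⟨h5, h6⟩, ⟨h7, h8, h9⟩, h10⟩
      rw [← h10]
      exact ((three (hg (Nat.pair e p.1))).2 _ h7 _ h8 _ h9 h5 h6).symm
    · intro h5
      obtain ⟨x, y, z, hxy, hyz, hx, hy, hz⟩ := h3 (Nat.pair e p.1)
      refine ⟨Nat.pair x (Nat.pair y z), ?_⟩
      simp only [Nat.unpair_pair]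
      refine ⟨⟨hxy, hyz⟩, ⟨hx, hy, hz⟩, ?_⟩
      rw [← h5]
      exact (three (hg (Nat.pair e p.1))).2 _ hx _ hy _ hz hxy hyz
  · show g (Nat.pair e j) < k
    obtain ⟨x, y, z, hxy, hyz, hx, hy, hz⟩ := h3 (Nat.pair e j)
    rw [← (three (hg (Nat.pair e j))).2 _ hx _ hy _ hz hxy hyz]
    exact CU_lt hk

/-- The tail of the sequence `x` after `j`. -/
def tailSet (x : ℕ → ℕ) (j : ℕ) : Set ℕ := {n | ∃ m, j < m ∧ x m = n}

/-- A solution of the iterated Hindman theorem for the sequence `C`. -/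
def Iter (C : ℕ → ℕ → ℕ) (x : ℕ → ℕ) : Prop :=
  StrictMono x ∧ 0 < x 0 ∧ ∀ j, ∃ i, ∀ F : Finset ℕ, F.Nonempty → (∀ m ∈ F, j < m) →
    C j (∑ m ∈ F, x m) = i

/-- The same for sums of exactly three terms. -/
def Iter3 (C : ℕ → ℕ → ℕ) (x : ℕ → ℕ) : Prop :=
  StrictMono x ∧ 0 < x 0 ∧ (∀ N, ∃ m, 3 ^ N ∣ x m) ∧
    ∀ j, ∃ i, ∀ F : Finset ℕ, F.card = 3 → (∀ m ∈ F, j < m) → C j (∑ m ∈ F, x m) = i

theorem pull {x : ℕ → ℕ} {j : ℕ} {F : Finset ℕ}
    (hF : (F : Set ℕ) ⊆ tailSet x j) :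
    ∃ G : Finset ℕ, (∀ m ∈ G, j < m) ∧ G.card = F.card ∧ ∑ m ∈ G, x m = ∑ n ∈ F, n := by
  classical
  have h1 : ∀ n ∈ F, ∃ m, j < m ∧ x m = n := fun n hn => hF hn
  choose! r hr using h1
  have hinj : Set.InjOn r (F : Set ℕ) := by
    intro a ha b hb hab
    rw [← (hr a ha).2, ← (hr b hb).2, hab]
  refine ⟨F.image r, ?_, Finset.card_image_of_injOn hinj, ?_⟩
  · intro m hm
    obtain ⟨n, hn, rfl⟩ := Finset.mem_image.1 hm
    exact (hr n hn).1
  · rw [Finset.sum_image hinj]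
    exact Finset.sum_congr rfl fun n hn => (hr n hn).2

theorem iter_sol {C : ℕ → ℕ → ℕ} {x : ℕ → ℕ} (h : Iter C x ∨ Iter3 C x) (j : ℕ) :
    SolH (C j) (tailSet x j) (C j (x (j + 1) + (x (j + 2) + x (j + 3)))) ∨
      Sol3 (C j) (tailSet x j) (C j (x (j + 1) + (x (j + 2) + x (j + 3)))) := by
  have hpos : StrictMono x → 0 < x 0 → 0 ∉ tailSet x j := by
    rintro h1 h2 ⟨m, hm, hm'⟩
    have := h1.monotone (Nat.zero_le m)
    omega
  have hs : ∑ m ∈ ({j + 1, j + 2, j + 3} : Finset ℕ), x m =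
      x (j + 1) + (x (j + 2) + x (j + 3)) := by
    rw [Finset.sum_insert (by simp), Finset.sum_pair (by simp)]
  have hc3 : ({j + 1, j + 2, j + 3} : Finset ℕ).card = 3 := by
    rw [Finset.card_insert_of_notMem (by simp), Finset.card_pair (by simp)]
  have hj : ∀ m ∈ ({j + 1, j + 2, j + 3} : Finset ℕ), j < m := by
    intro m hm
    simp only [Finset.mem_insert, Finset.mem_singleton] at hm
    omega
  rcases h with ⟨h1, h2, h3⟩ | ⟨h1, h2, h4, h3⟩
  · left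
    obtain ⟨i, hi⟩ := h3 j
    have h5 := hi _ ⟨j + 1, by simp⟩ hj
    rw [hs] at h5
    rw [h5]
    refine ⟨?_, hpos h1 h2, ?_⟩
    · refine Set.infinite_of_forall_exists_gt fun a => ⟨x (a + j + 1), ⟨_, by omega, rfl⟩, ?_⟩
      have := h1.id_le (a + j + 1)
      simp only [id_eq] at this
      omega
    · intro F hF hne
      obtain ⟨G, g1, g2, g3⟩ := pull hF
      rw [← g3]
      refine hi G ?_ g1
      rw [← Finset.card_pos, g2]
      exact hne.card_pos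
  · right
    obtain ⟨i, hi⟩ := h3 j
    have h5 := hi _ hc3 hj
    rw [hs] at h5
    rw [h5]
    refine ⟨fun N => ?_, hpos h1 h2, ?_⟩
    · obtain ⟨m, hm⟩ := h4 (N + x j)
      refine ⟨x m, ⟨m, ?_, rfl⟩, (pow_dvd_pow 3 (Nat.le_add_right N (x j))).trans hm⟩
      by_contra hc
      have h6 := h1.monotone (not_lt.1 hc)
      have h7 : 0 < x m := lt_of_lt_of_le h2 (h1.monotone (Nat.zero_le m))
      have h8 := Nat.le_of_dvd h7 hm
      have h9 : N + x j < 3 ^ (N + x j) := Nat.lt_pow_self (by norm_num)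
      omega
    · intro F hF hc
      obtain ⟨G, g1, g2, g3⟩ := pull hF
      rw [← g3]
      exact hi G (by rw [g2, hc]) g1

/-- A computable function of the values of an oracle. -/
theorem red_of_comp {x : ℕ → ℕ} {q : ℕ → ℕ} {G : ℕ → ℕ} (hq : Computable q) (hG : Computable G) :
    TuringReducible (fun n => Part.some (G (Nat.pair n
      (x (q n + 1) + (x (q n + 2) + x (q n + 3))))))
      (fun n => Part.some (x n)) := by
  refine RecursiveIn.iff_nat.2 ?_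
  have tot : ∀ {f : ℕ → ℕ}, Computable f → Nat.RecursiveIn {fun n => Part.some (x n)}
      (fun n => Part.some (f n)) := fun hf => Nat.Partrec.recursiveIn (Partrec.nat_iff.1 hf)
  have hcomp : ∀ {f g : ℕ → ℕ}, Nat.RecursiveIn {fun n => Part.some (x n)}
      (fun n => Part.some (f n)) → Nat.RecursiveIn {fun n => Part.some (x n)}
      (fun n => Part.some (g n)) → Nat.RecursiveIn {fun n => Part.some (x n)}
      (fun n => Part.some (f (g n))) := fun hf hg =>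
    (Nat.RecursiveIn.comp hf hg).of_eq fun n => by simp
  have hpair : ∀ {f g : ℕ → ℕ}, Nat.RecursiveIn {fun n => Part.some (x n)}
      (fun n => Part.some (f n)) → Nat.RecursiveIn {fun n => Part.some (x n)}
      (fun n => Part.some (g n)) → Nat.RecursiveIn {fun n => Part.some (x n)}
      (fun n => Part.some (Nat.pair (f n) (g n))) := fun hf hg =>
    (Nat.RecursiveIn.pair hf hg).of_eq fun n => by simp [Seq.seq]
  have hor : Nat.RecursiveIn {fun n => Part.some (x n)} (fun n => Part.some (x n)) :=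
    Nat.RecursiveIn.oracle _ rfl
  have h1 := hcomp hor (tot (f := fun n => q n + 1) (by fun_prop))
  have h2 := hcomp hor (tot (f := fun n => q n + 2) (by fun_prop))
  have h3 := hcomp hor (tot (f := fun n => q n + 3) (by fun_prop))
  have h4 := hpair (tot (f := fun n => n) (by fun_prop)) (hpair h1 (hpair h2 h3))
  have h5 := hcomp (tot (f := fun w : ℕ => G (Nat.pair w.unpair.1 (w.unpair.2.unpair.1 +
    (w.unpair.2.unpair.2.unpair.1 + w.unpair.2.unpair.2.unpair.2)))) (by fun_prop)) h4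
  refine h5.of_eq fun n => ?_
  simp

theorem iter_choice {k : ℕ} (hk : 0 < k) {x : ℕ → ℕ} (hx : Iter (CU k) x ∨ Iter3 (CU k) x)
    {R : ℕ → ℕ → ℕ → ℕ → ℕ → ℕ → Bool}
    (hR : Computable fun x : ℕ × ℕ × ℕ × ℕ × ℕ × ℕ =>
      R x.1 x.2.1 x.2.2.1 x.2.2.2.1 x.2.2.2.2.1 x.2.2.2.2.2) :
    ∃ f : ℕ → ℕ, TuringReducible (fun n => Part.some (f n)) (fun n => Part.some (x n)) ∧
      Chooses k R f := by
  obtain ⟨e, he⟩ := CU_sol hR k
  refine ⟨fun j => CU k (Nat.pair e j) (x (Nat.pair e j + 1) + (x (Nat.pair e j + 2) +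
    x (Nat.pair e j + 3))), ?_, fun j => CU_lt hk, fun j hj => he j hj _ _ (iter_sol hx _)⟩
  have h := red_of_comp (x := x) (q := fun j => Nat.pair e j)
    (G := fun w : ℕ => CU k (Nat.pair e w.unpair.1) w.unpair.2) (by fun_prop)
    ((c_CU k).comp (g := fun w : ℕ => (Nat.pair e w.unpair.1, w.unpair.2)) (by fun_prop))
  simpa only [Nat.unpair_pair] using h

/-- The relation which presents a `Δ⁰₄` set by its two definitions. -/
def Rdel (P Q : ℕ → ℕ → ℕ → ℕ → ℕ → Bool) (j i a b t u : ℕ) : Bool :=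
  bif decide (i = 0) then Q j a b t u else (decide (i = 1) && P j a b t u)

theorem c_Rdel {P Q : ℕ → ℕ → ℕ → ℕ → ℕ → Bool}
    (hP : Computable fun x : ℕ × ℕ × ℕ × ℕ × ℕ => P x.1 x.2.1 x.2.2.1 x.2.2.2.1 x.2.2.2.2)
    (hQ : Computable fun x : ℕ × ℕ × ℕ × ℕ × ℕ => Q x.1 x.2.1 x.2.2.1 x.2.2.2.1 x.2.2.2.2) :
    Computable fun x : ℕ × ℕ × ℕ × ℕ × ℕ × ℕ =>
      Rdel P Q x.1 x.2.1 x.2.2.1 x.2.2.2.1 x.2.2.2.2.1 x.2.2.2.2.2 := by
  unfold Rdel
  refine ccond (c_deq (by fun_prop) (by fun_prop)) ?_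
    (cand (c_deq (by fun_prop) (by fun_prop)) ?_)
  · exact hQ.comp (g := fun x : ℕ × ℕ × ℕ × ℕ × ℕ × ℕ =>
      (x.1, x.2.2.1, x.2.2.2.1, x.2.2.2.2.1, x.2.2.2.2.2)) (by fun_prop)
  · exact hP.comp (g := fun x : ℕ × ℕ × ℕ × ℕ × ℕ × ℕ =>
      (x.1, x.2.2.1, x.2.2.2.1, x.2.2.2.2.1, x.2.2.2.2.2)) (by fun_prop)

/-- A choice function for this relation is the characteristic function. -/
theorem choice_del {k : ℕ} (hk : 2 ≤ k) {A : Set ℕ} {P Q : ℕ → ℕ → ℕ → ℕ → ℕ → Bool}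
    (h1 : ∀ n, n ∈ A ↔ ∃ a, ∀ b, ∃ t, ∀ u, P n a b t u = true)
    (h2 : ∀ n, n ∉ A ↔ ∃ a, ∀ b, ∃ t, ∀ u, Q n a b t u = true) {f : ℕ → ℕ}
    (hf : Chooses k (Rdel P Q) f) (n : ℕ) : (n ∈ A → f n = 1) ∧ (n ∉ A → f n = 0) := by
  have s1 : ∀ n, Sig4 (Rdel P Q) n 1 ↔ n ∈ A := by
    intro n
    rw [h1]
    unfold Sig4 Rdel
    simp
  have s0 : ∀ n, Sig4 (Rdel P Q) n 0 ↔ n ∉ A := by
    intro n
    rw [h2]
    unfold Sig4 Rdel
    simp
  have s2 : ∀ n i, 2 ≤ i → ¬ Sig4 (Rdel P Q) n i := by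
    rintro n i hi ⟨a, ha⟩
    obtain ⟨t, ht⟩ := ha 0
    have h3 := ht 0
    unfold Rdel at h3
    have h4 : decide (i = 0) = false := decide_eq_false (by omega)
    have h5 : decide (i = 1) = false := decide_eq_false (by omega)
    simp [h4, h5] at h3
  constructor
  · intro hn
    have h3 := hf.2 n ⟨1, by omega, (s1 n).2 hn⟩
    rcases Nat.lt_or_ge (f n) 2 with h4 | h4
    · have h5 : f n ≠ 0 := by
        intro h6
        rw [h6] at h3
        exact (s0 n).1 h3 hn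
      omega
    · exact absurd h3 (s2 n _ h4)
  · intro hn
    have h3 := hf.2 n ⟨0, by omega, (s0 n).2 hn⟩
    rcases Nat.lt_or_ge (f n) 2 with h4 | h4
    · have h5 : f n ≠ 1 := by
        intro h6
        rw [h6] at h3
        exact hn ((s1 n).1 h3)
      omega
    · exact absurd h3 (s2 n _ h4)

end Pool.Agent.T2h24.HC
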